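import Pool.Agent.Helper32.CL.St1

set_option autoImplicit false

namespace Pool.Agent.Helper21.CL

open Helper32.CL Helper35.PI Helper35.PI2
open scoped ContDiff Manifold Topology ENNReal BigOperators
open MeasureTheory Set Filter

/-- a global smooth function equal to `1/(s+b)` for `s ≥ 0` -/
noncomputable def zt (b s : ℝ) : ℝ := Real.smoothTransition (1 + 2 * s / b) * (s + b)⁻¹

lemma zt_eq {b s : ℝ} (hb : 0 < b) (hs : 0 ≤ s) : zt b s = (s + b)⁻¹ := by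
  unfold zt
  rw [Real.smoothTransition.one_of_one_le, one_mul]
  have : 0 ≤ 2 * s / b := by positivity
  linarith

lemma zt_contDiff {b : ℝ} (hb : 0 < b) : ContDiff ℝ 1 (zt b) := by
  rw [contDiff_iff_contDiffAt]
  intro s
  rcases lt_or_ge (-b) s with h | h
  · apply ContDiffAt.mul
    · exact (Real.smoothTransition.contDiff (n := 1)).contDiffAt.comp s (by fun_prop)
    · apply ContDiffAt.inv (by fun_prop)
      linarith
  · have hev : zt b =ᶠ[𝓝 s] fun _ => 0 := by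
      have hlt : s < -b / 2 := by linarith
      filter_upwards [Iio_mem_nhds hlt] with u hu
      unfold zt
      rw [Real.smoothTransition.zero_of_nonpos, zero_mul]
      have hu' : u < -b / 2 := hu
      have : 2 * u / b ≤ -1 := by
        rw [div_le_iff₀ hb]
        linarith
      linarith
    exact contDiffAt_const.congr_of_eventuallyEq hev

lemma zt_deriv {b s : ℝ} (hb : 0 < b) (hs : 0 ≤ s) : deriv (zt b) s = -((s + b) ^ 2)⁻¹ := by
  have h1 : HasDerivWithinAt (zt b) (deriv (zt b) s) (Ici s) s :=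
    ((zt_contDiff hb).differentiable (by norm_num) s).hasDerivAt.hasDerivWithinAt
  have h2 : HasDerivAt (fun u : ℝ => (u + b)⁻¹) (-((s + b) ^ 2)⁻¹) s := by
    have h3 : HasDerivAt (fun u : ℝ => u + b) 1 s := (hasDerivAt_id s).add_const b
    have h4 : HasDerivAt (fun u : ℝ => (u + b)⁻¹) (-1 / (s + b) ^ 2) s :=
      h3.fun_inv (by linarith : s + b ≠ 0)
    have h5 : -1 / (s + b) ^ 2 = -((s + b) ^ 2)⁻¹ := by rw [neg_div, one_div]
    rw [← h5]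
    exact h4
  have h5 : HasDerivWithinAt (zt b) (-((s + b) ^ 2)⁻¹) (Ici s) s := by
    apply h2.hasDerivWithinAt.congr_of_mem
    · intro u hu
      exact zt_eq hb (le_trans hs hu)
    · exact self_mem_Ici
  exact (uniqueDiffWithinAt_Ici s).eq_deriv _ h1 h5

/-- the pointwise inequality -/
lemma pw {V : Type} [NormedAddCommGroup V] [InnerProductSpace ℝ V] (g H v : V) (h k ρ r ε : ℝ)
    (hv : ‖v‖ = ρ) (hh : 0 ≤ h) (hg : ‖g‖ ≤ k) (hr : r ≤ ρ ^ 2) (hε : 0 < ε) :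
    h * (2 * ε ^ 2) / (ρ ^ 2 + ε ^ 2) ^ 2 - (k + ‖H‖ * h) * (ρ / (ρ ^ 2 + ε ^ 2)) ≤
      h * (2 * (ρ ^ 2 + ε ^ 2)⁻¹ + 2 * -((ρ ^ 2 + ε ^ 2) ^ 2)⁻¹ * r)
          + (ρ ^ 2 + ε ^ 2)⁻¹ * inner ℝ g v
          + h * ((ρ ^ 2 + ε ^ 2)⁻¹ * inner ℝ H v) := by
  have hρ0 : 0 ≤ ρ := hv ▸ norm_nonneg v
  have hg1 : |(inner ℝ g v : ℝ)| ≤ k * ρ := by
    have := abs_real_inner_le_norm g v
    rw [hv] at this
    exact this.trans (mul_le_mul_of_nonneg_right hg hρ0)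
  have hg2 : |(inner ℝ H v : ℝ)| ≤ ‖H‖ * ρ := by
    have := abs_real_inner_le_norm H v
    rwa [hv] at this
  obtain ⟨D, hD⟩ : ∃ D, D = ρ ^ 2 + ε ^ 2 := ⟨_, rfl⟩
  have hD0 : 0 < D := by rw [hD]; positivity
  rw [← hD]
  have hDi : 0 < D⁻¹ := inv_pos.2 hD0
  have f1 : -(k * ρ) ≤ inner ℝ g v := (abs_le.1 hg1).1
  have f2 : -(‖H‖ * ρ) ≤ inner ℝ H v := (abs_le.1 hg2).1
  have f3 : h * (2 * ε ^ 2) / D ^ 2 ≤ h * (2 * D⁻¹ + 2 * -(D ^ 2)⁻¹ * r) := by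
    have : 2 * D⁻¹ + 2 * -(D ^ 2)⁻¹ * r = (2 * D - 2 * r) / D ^ 2 := by
      field_simp
      ring
    rw [this, mul_div_assoc]
    apply mul_le_mul_of_nonneg_left _ hh
    apply div_le_div_of_nonneg_right _ (by positivity)
    rw [hD]
    linarith
  have f4 : -(k * ρ) * D⁻¹ ≤ D⁻¹ * inner ℝ g v := by
    rw [mul_comm D⁻¹]
    exact mul_le_mul_of_nonneg_right f1 hDi.le
  have f5 : h * (-(‖H‖ * ρ) * D⁻¹) ≤ h * (D⁻¹ * inner ℝ H v) := by
    apply mul_le_mul_of_nonneg_left _ hh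
    rw [mul_comm D⁻¹]
    exact mul_le_mul_of_nonneg_right f2 hDi.le
  have f6 : h * (2 * ε ^ 2) / D ^ 2 - (k + ‖H‖ * h) * (ρ / D) =
      h * (2 * ε ^ 2) / D ^ 2 + -(k * ρ) * D⁻¹ + h * (-(‖H‖ * ρ) * D⁻¹) := by
    rw [div_eq_mul_inv ρ D]
    ring
  rw [f6]
  linarith

/-- the measure theoretic part -/
lemma core {M : Type} [TopologicalSpace M] [MeasurableSpace M] [BorelSpace M] (μ : Measure M)
    (hint : ∀ g : M → ℝ, Continuous g → Integrable g μ) (h a ρ : M → ℝ) (hh : Continuous h)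
    (ha : Continuous a) (hρ : Continuous ρ) (hh0 : ∀ p, 0 ≤ h p) (ha0 : ∀ p, 0 ≤ a p)
    (hρ0 : ∀ p, 0 ≤ ρ p) (q₀ : M)
    (hm : ∀ ε : ℝ, 0 < ε → ∫ p, h p * (2 * ε ^ 2) / (ρ p ^ 2 + ε ^ 2) ^ 2 ∂μ ≤
      ∫ p, a p * (ρ p / (ρ p ^ 2 + ε ^ 2)) ∂μ)
    (hSB : ∀ U ∈ 𝓝 q₀, ∀ᶠ ε in 𝓝[>] (0 : ℝ), ENNReal.ofReal (ε ^ 2) ≤ μ (U ∩ {p | ρ p ≤ ε})) :
    ENNReal.ofReal (h q₀ / 2) ≤ ∫⁻ p, ENNReal.ofReal (a p / ρ p) ∂μ := by
  -- the main inequality
  have hmain : ∀ ε : ℝ, 0 < ε →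
      ∫⁻ p, ENNReal.ofReal (h p * (2 * ε ^ 2) / (ρ p ^ 2 + ε ^ 2) ^ 2) ∂μ ≤
        ∫⁻ p, ENNReal.ofReal (a p / ρ p) ∂μ := by
    intro ε hε
    have hden : ∀ p, 0 < ρ p ^ 2 + ε ^ 2 := fun p => by positivity
    have hLc : Continuous fun p => h p * (2 * ε ^ 2) / (ρ p ^ 2 + ε ^ 2) ^ 2 := by
      apply Continuous.div (by fun_prop) (by fun_prop)
      intro p
      exact (pow_pos (hden p) 2).ne'
    have hRc : Continuous fun p => a p * (ρ p / (ρ p ^ 2 + ε ^ 2)) := by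
      apply Continuous.mul (by fun_prop)
      apply Continuous.div (by fun_prop) (by fun_prop)
      intro p
      exact (hden p).ne'
    have hLi := hint _ hLc
    have hRi := hint _ hRc
    have hL0 : ∀ p, 0 ≤ h p * (2 * ε ^ 2) / (ρ p ^ 2 + ε ^ 2) ^ 2 := fun p => by
      have := hh0 p
      positivity
    have hR0 : ∀ p, 0 ≤ a p * (ρ p / (ρ p ^ 2 + ε ^ 2)) := fun p => by
      have := ha0 p
      have := hρ0 p
      positivity
    calc ∫⁻ p, ENNReal.ofReal (h p * (2 * ε ^ 2) / (ρ p ^ 2 + ε ^ 2) ^ 2) ∂μ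
        = ENNReal.ofReal (∫ p, h p * (2 * ε ^ 2) / (ρ p ^ 2 + ε ^ 2) ^ 2 ∂μ) :=
          (ofReal_integral_eq_lintegral_ofReal hLi (Eventually.of_forall hL0)).symm
      _ ≤ ENNReal.ofReal (∫ p, a p * (ρ p / (ρ p ^ 2 + ε ^ 2)) ∂μ) :=
          ENNReal.ofReal_le_ofReal (hm ε hε)
      _ = ∫⁻ p, ENNReal.ofReal (a p * (ρ p / (ρ p ^ 2 + ε ^ 2))) ∂μ :=
          ofReal_integral_eq_lintegral_ofReal hRi (Eventually.of_forall hR0)
      _ ≤ ∫⁻ p, ENNReal.ofReal (a p / ρ p) ∂μ := by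
          apply lintegral_mono
          intro p
          apply ENNReal.ofReal_le_ofReal
          rw [div_eq_mul_inv (a p) (ρ p)]
          apply mul_le_mul_of_nonneg_left _ (ha0 p)
          rcases (hρ0 p).eq_or_lt with h0 | h0
          · rw [← h0]
            simp
          · rw [div_le_iff₀ (hden p)]
            have : (ρ p)⁻¹ * (ρ p ^ 2 + ε ^ 2) = ρ p + (ρ p)⁻¹ * ε ^ 2 := by
              field_simp
            rw [this]
            have : 0 ≤ (ρ p)⁻¹ * ε ^ 2 := by positivity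
            linarith
  -- lower bound
  have hlow : ∀ η : ℝ, 0 < η →
      ENNReal.ofReal ((h q₀ - η) / 2) ≤ ∫⁻ p, ENNReal.ofReal (a p / ρ p) ∂μ := by
    intro η hη
    rcases le_total (h q₀ - η) 0 with h0 | h0
    · rw [ENNReal.ofReal_of_nonpos (by linarith)]
      exact zero_le
    have hU : {p | h q₀ - η < h p} ∈ 𝓝 q₀ :=
      (isOpen_lt continuous_const hh).mem_nhds (by simpa using hη)
    have hev := hSB _ hU
    obtain ⟨ε, hε1, hε0⟩ := (hev.and self_mem_nhdsWithin).exists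
    have hε : 0 < ε := hε0
    refine le_trans ?_ (hmain ε hε)
    have hden : ∀ p, 0 < ρ p ^ 2 + ε ^ 2 := fun p => by positivity
    have hsub : ({p | h q₀ - η < h p} ∩ {p | ρ p ≤ ε}) ⊆
        {p | ENNReal.ofReal ((h q₀ - η) / (2 * ε ^ 2)) ≤
        ENNReal.ofReal (h p * (2 * ε ^ 2) / (ρ p ^ 2 + ε ^ 2) ^ 2)} := by
      intro p hp
      apply ENNReal.ofReal_le_ofReal
      have hp1 : h q₀ - η < h p := hp.1
      have hp2 : ρ p ≤ ε := hp.2
      have hρ2 : ρ p ^ 2 ≤ ε ^ 2 := pow_le_pow_left₀ (hρ0 p) hp2 2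
      have hD2 : (ρ p ^ 2 + ε ^ 2) ^ 2 ≤ (2 * ε ^ 2) ^ 2 :=
        pow_le_pow_left₀ (hden p).le (by linarith) 2
      rw [div_le_div_iff₀ (by positivity) (pow_pos (hden p) 2)]
      calc (h q₀ - η) * (ρ p ^ 2 + ε ^ 2) ^ 2 ≤ h p * (2 * ε ^ 2) ^ 2 := by
            apply mul_le_mul hp1.le hD2 (by positivity) (hh0 p)
        _ = h p * (2 * ε ^ 2) * (2 * ε ^ 2) := by ring
    have hmeas : Measurable fun p => ENNReal.ofReal (h p * (2 * ε ^ 2) / (ρ p ^ 2 + ε ^ 2) ^ 2) := by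
      apply ENNReal.measurable_ofReal.comp
      apply Continuous.measurable
      apply Continuous.div (by fun_prop) (by fun_prop)
      intro p
      exact (pow_pos (hden p) 2).ne'
    calc ENNReal.ofReal ((h q₀ - η) / 2)
        = ENNReal.ofReal ((h q₀ - η) / (2 * ε ^ 2)) * ENNReal.ofReal (ε ^ 2) := by
          rw [← ENNReal.ofReal_mul (by positivity)]
          congr 1
          field_simp
      _ ≤ ENNReal.ofReal ((h q₀ - η) / (2 * ε ^ 2)) *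
            μ ({p | h q₀ - η < h p} ∩ {p | ρ p ≤ ε}) := by
          gcongr
      _ ≤ ENNReal.ofReal ((h q₀ - η) / (2 * ε ^ 2)) *
            μ {p | ENNReal.ofReal ((h q₀ - η) / (2 * ε ^ 2)) ≤
            ENNReal.ofReal (h p * (2 * ε ^ 2) / (ρ p ^ 2 + ε ^ 2) ^ 2)} := by
          gcongr
      _ ≤ _ := mul_meas_ge_le_lintegral hmeas _
  have ht1 : Tendsto (fun η : ℝ => ENNReal.ofReal ((h q₀ - η) / 2)) (𝓝[>] 0)
      (𝓝 (ENNReal.ofReal ((h q₀ - 0) / 2))) := by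
    apply Tendsto.mono_left _ nhdsWithin_le_nhds
    apply (ENNReal.continuous_ofReal.comp (by fun_prop : Continuous fun η : ℝ => (h q₀ - η) / 2)).tendsto
  rw [sub_zero] at ht1
  exact le_of_tendsto ht1 (by
    filter_upwards [self_mem_nhdsWithin] with η hη
    exact hlow η hη)

/-- the geometric part -/
lemma geo {N : ℕ} {M : Type} [TopologicalSpace M] [T2Space M] [CompactSpace M]
    [MeasurableSpace M] [BorelSpace M] [ChartedSpace (EE 2) M] [IsManifold (𝓡 2) ∞ M]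
    (hFV : Helper32.CL.StFV) (hPR : Helper32.CL.StPR)
    (F : M → ℝ → EE N) (c : ℕ → M) (χ : ℕ → M → ℝ) (hS : Setup 2 F c χ) (t : ℝ) (ht : t < 0)
    (hint : ∀ g : M → ℝ, Continuous g → Integrable g (muM 2 F c χ t))
    (hF : Continuous (fun q => F q t)) (hH : Continuous (fun q => HH (n := 2) F q t))
    (h k : M → ℝ) (hh : ContMDiff (𝓡 2) 𝓘(ℝ, ℝ) 1 h) (hk : Continuous k) (hh0 : ∀ q, 0 ≤ h q)
    (hgk : ∀ q, ‖gdM 2 F t h q‖ ≤ k q) (q₀ : M) (ε : ℝ) (hε : 0 < ε) :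
    ∫ p, h p * (2 * ε ^ 2) / (‖F p t - F q₀ t‖ ^ 2 + ε ^ 2) ^ 2 ∂muM 2 F c χ t ≤
      ∫ p, (k p + ‖HH (n := 2) F p t‖ * h p) *
        (‖F p t - F q₀ t‖ / (‖F p t - F q₀ t‖ ^ 2 + ε ^ 2)) ∂muM 2 F c χ t := by
  have hb : (0:ℝ) < ε ^ 2 := by positivity
  have hhc : Continuous h := hh.continuous
  have hρc : Continuous (fun q => ‖F q t - F q₀ t‖) := (hF.sub continuous_const).norm
  have hden : ∀ p, 0 < ‖F p t - F q₀ t‖ ^ 2 + ε ^ 2 := fun p => by positivity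
  obtain ⟨hPR1, hPR2⟩ := hPR 2 N M F hS.mcf t ht
  obtain ⟨r, hr, -, hrX⟩ := hPR2 (F q₀ t)
  obtain ⟨hXs, hXd⟩ := hrX (zt (ε ^ 2)) (zt_contDiff hb)
  have hXX : ContMDiff (𝓡 2) 𝓘(ℝ, EE N) 1
      (fun q => h q • (zt (ε ^ 2) (‖F q t - F q₀ t‖ ^ 2) • (F q t - F q₀ t))) := hh.smul hXs
  obtain ⟨hdc, hd0⟩ := hFV 2 N M F c χ hS t ht _ hXX
  have hLc : Continuous fun p => h p * (2 * ε ^ 2) / (‖F p t - F q₀ t‖ ^ 2 + ε ^ 2) ^ 2 := by
    apply Continuous.div (hhc.mul continuous_const) (((hρc.pow 2).add continuous_const).pow 2)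
    intro p
    exact (pow_pos (hden p) 2).ne'
  have hRc : Continuous fun p => (k p + ‖HH (n := 2) F p t‖ * h p) *
      (‖F p t - F q₀ t‖ / (‖F p t - F q₀ t‖ ^ 2 + ε ^ 2)) := by
    apply Continuous.mul (hk.add (hH.norm.mul hhc))
    apply Continuous.div hρc ((hρc.pow 2).add continuous_const)
    intro p
    exact (hden p).ne'
  have hIc : Continuous fun p => dvg (n := 2) F
      (fun q => h q • (zt (ε ^ 2) (‖F q t - F q₀ t‖ ^ 2) • (F q t - F q₀ t))) p t +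
      inner ℝ (HH (n := 2) F p t) (h p • (zt (ε ^ 2) (‖F p t - F q₀ t‖ ^ 2) • (F p t - F q₀ t))) :=
    hdc.add (Continuous.inner (𝕜 := ℝ) hH hXX.continuous)
  have hLi := hint _ hLc
  have hRi := hint _ hRc
  have hIi := hint _ hIc
  have h1 : ∫ p, (h p * (2 * ε ^ 2) / (‖F p t - F q₀ t‖ ^ 2 + ε ^ 2) ^ 2 -
      (k p + ‖HH (n := 2) F p t‖ * h p) *
      (‖F p t - F q₀ t‖ / (‖F p t - F q₀ t‖ ^ 2 + ε ^ 2))) ∂muM 2 F c χ t ≤ 0 := by
    rw [← hd0]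
    apply integral_mono (hLi.sub hRi) hIi
    intro p
    have hz : zt (ε ^ 2) (‖F p t - F q₀ t‖ ^ 2) = (‖F p t - F q₀ t‖ ^ 2 + ε ^ 2)⁻¹ :=
      zt_eq hb (by positivity)
    have hz' : deriv (zt (ε ^ 2)) (‖F p t - F q₀ t‖ ^ 2) =
      -((‖F p t - F q₀ t‖ ^ 2 + ε ^ 2) ^ 2)⁻¹ := zt_deriv hb (by positivity)
    have e1 := hPR1 h hh _ hXs p
    have e2 := hXd p
    rw [hz, hz'] at e2
    refine le_trans (pw (gdM 2 F t h p) (HH (n := 2) F p t) (F p t - F q₀ t) (h p) (k p)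
      ‖F p t - F q₀ t‖ (r p) ε rfl (hh0 p) (hgk p) (hr p).2.1 hε) (le_of_eq ?_)
    show _ = dvg (n := 2) F
      (fun q => h q • (zt (ε ^ 2) (‖F q t - F q₀ t‖ ^ 2) • (F q t - F q₀ t))) p t +
      inner ℝ (HH (n := 2) F p t) (h p • (zt (ε ^ 2) (‖F p t - F q₀ t‖ ^ 2) • (F p t - F q₀ t)))
    rw [e1, e2, hz, inner_smul_right, inner_smul_right, inner_smul_right]
    push_cast
    ring
  rw [integral_sub hLi hRi] at h1
  linarith

/-- a slice of a continuous function of space time is continuous -/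
lemma sl {M E : Type} [TopologicalSpace M] [TopologicalSpace E] (G : M → ℝ → E)
    (hG : ContinuousOn (fun z : M × ℝ => G z.1 z.2) (univ ×ˢ Iio 0)) (t : ℝ) (ht : t < 0) :
    Continuous fun q => G q t := by
  have hslice : Continuous (fun q : M => ((q, t) : M × ℝ)) := by fun_prop
  have hmaps : ∀ q : M, ((q, t) : M × ℝ) ∈ (univ : Set M) ×ˢ Iio (0:ℝ) := fun q => ⟨mem_univ _, ht⟩
  exact hG.comp_continuous hslice hmaps

lemma mrF {N : ℕ} {M : Type} [TopologicalSpace M]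
    [ChartedSpace (EE 2) M] [IsManifold (𝓡 2) ∞ M] (hI4 : Helper35.PI.StI4)
    (F : M → ℝ → EE N) (hS : IsMCF (n := 2) F) (t : ℝ) (ht : t < 0) :
    Continuous fun q => F q t :=
  sl F (hI4 2 N M F hS).1 t ht

lemma mrH {N : ℕ} {M : Type} [TopologicalSpace M]
    [ChartedSpace (EE 2) M] [IsManifold (𝓡 2) ∞ M] (hI4 : Helper35.PI.StI4)
    (F : M → ℝ → EE N) (hS : IsMCF (n := 2) F) (t : ℝ) (ht : t < 0) :
    Continuous fun q => HH (n := 2) F q t :=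
  sl (HH (n := 2) F) (hI4 2 N M F hS).2.1 t ht

theorem hMR (hMU : Helper32.CL.StMU) (hFV : Helper32.CL.StFV) (hPR : Helper32.CL.StPR)
    (hSB : Helper32.CL.StSB) (hI4 : Helper35.PI.StI4) : StMR := by
  intro N M _ _ _ _ _ _ _ F c χ hS t ht h k hh hk hh0 hgk q₀
  have hF : Continuous (fun q => F q t) := mrF hI4 F hS.mcf t ht
  have hH : Continuous (fun q => HH (n := 2) F q t) := mrH hI4 F hS.mcf t ht
  have hhc : Continuous h := hh.continuous
  have hint' : ∀ g : M → ℝ, Continuous g → Integrable g (muM 2 F c χ t) := by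
    obtain ⟨s, hs0, hs⟩ := hMU 2 N M F c χ hS
    exact fun g hg => ((hs t ht).2.2 g hg).1
  have hac : Continuous (fun p => k p + ‖HH (n := 2) F p t‖ * h p) := hk.add (hH.norm.mul hhc)
  have hρc : Continuous (fun p => ‖F p t - F q₀ t‖) := (hF.sub continuous_const).norm
  have ha0 : ∀ p, 0 ≤ k p + ‖HH (n := 2) F p t‖ * h p := fun p => by
    have := hh0 p
    have : 0 ≤ k p := le_trans (norm_nonneg _) (hgk p)
    positivity
  have hg := fun ε hε => geo hFV hPR F c χ hS t ht hint' hF hH h k hh hk hh0 hgk q₀ ε hε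
  have hsb := hSB N M F c χ hS t ht q₀
  exact core (muM 2 F c χ t) hint' h _ _ hhc hac hρc hh0 ha0 (fun p => norm_nonneg _) q₀ hg hsb

end Pool.Agent.Helper21.CL
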